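import Pool.Agent.Lib.MP_bc213e_ag.Hyp.Defs

/-! Coordinates in a finite dimensional space over the field of constants are bounded at a
valuation at which derivations are bounded; descent by traces. -/

namespace Pool.Agent.Lib.MP_bc213e_ag.KBA

open WithZero Module

open scoped IntermediateField.algebraAdjoinAdjoin in
theorem W_der_basis {L K ι : Type*} [Field L] [Field K] [Algebra L K] [CharZero L] {v : ι → K}
    (hv : IsTranscendenceBasis L v) (w : ι → K) :
    ∃ D : Derivation L K K, ∀ i, D (v i) = w i := by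
  let : Algebra (MvPolynomial ι L) K :=
    (MvPolynomial.aeval v : MvPolynomial ι L →ₐ[L] K).toRingHom.toAlgebra
  have : IsScalarTower L (MvPolynomial ι L) K :=
    .of_algebraMap_eq fun r => ((MvPolynomial.aeval v : MvPolynomial ι L →ₐ[L] K).commutes r).symm
  have hE : Algebra.FormallyEtale (MvPolynomial ι L) K := by
    let : Algebra (MvPolynomial ι L) (Algebra.adjoin L (Set.range v)) :=
      hv.1.aevalEquiv.toAlgHom.toRingHom.toAlgebra
    have : IsScalarTower (MvPolynomial ι L) (Algebra.adjoin L (Set.range v)) K :=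
      .of_algebraMap_eq fun r => (hv.1.algebraMap_aevalEquiv r).symm
    have h1 : Algebra.FormallyEtale (MvPolynomial ι L) (Algebra.adjoin L (Set.range v)) :=
      .of_equiv (AlgEquiv.ofBijective (Algebra.ofId _ (Algebra.adjoin L (Set.range v)))
        hv.1.aevalEquiv.bijective)
    have h2 : Algebra.FormallyEtale (Algebra.adjoin L (Set.range v))
        (IntermediateField.adjoin L (Set.range v)) := .of_isLocalization (nonZeroDivisors _)
    have h3 : Algebra.IsAlgebraic (IntermediateField.adjoin L (Set.range v)) K :=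
      hv.isAlgebraic_field
    have h4 : Algebra.FormallyEtale (IntermediateField.adjoin L (Set.range v)) K :=
      .of_isSeparable _ K
    have h5 : Algebra.FormallyEtale (Algebra.adjoin L (Set.range v)) K :=
      .comp _ (IntermediateField.adjoin L (Set.range v)) K
    exact .comp _ (Algebra.adjoin L (Set.range v)) K
  let d0 : Derivation L (MvPolynomial ι L) K := MvPolynomial.mkDerivation L w
  let e := KaehlerDifferential.tensorKaehlerEquivOfFormallyEtale L (MvPolynomial ι L) K
  refine ⟨((d0.liftKaehlerDifferential.liftBaseChange K).comp e.symm.toLinearMap).compDer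
    (KaehlerDifferential.D L K), fun i => ?_⟩
  have hi : v i = algebraMap (MvPolynomial ι L) K (MvPolynomial.X i) :=
    (MvPolynomial.aeval_X v i).symm
  change (d0.liftKaehlerDifferential.liftBaseChange K)
    (e.symm (KaehlerDifferential.D L K (v i))) = w i
  rw [hi, KaehlerDifferential.tensorKaehlerEquivOfFormallyEtale_symm_D_algebraMap,
    LinearMap.liftBaseChange_tmul, one_smul, Derivation.liftKaehlerDifferential_comp_D]
  exact MvPolynomial.mkDerivation_X L w i

/-- A transcendental element is moved by a derivation. -/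
theorem exists_der_one {L K : Type*} [Field L] [Field K] [Algebra L K] [CharZero L] {y : K}
    (hy : Transcendental L y) : ∃ D : Derivation L K K, D y = 1 := by
  have hv : AlgebraicIndependent L (fun _ : Unit => y) := algebraicIndependent_unique_type_iff.2 hy
  obtain ⟨t, ht, hb⟩ := exists_isTranscendenceBasis_superset (s := Set.range fun _ : Unit => y)
    hv.to_subtype_range
  obtain ⟨D, hD⟩ := W_der_basis hb fun _ => 1
  exact ⟨D, hD ⟨y, ht ⟨(), rfl⟩⟩⟩

section Bound

variable {F K Γ : Type*} [Field F] [Field K] [Algebra F K] [LinearOrderedCommGroupWithZero Γ]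

theorem W_lin_bound_aux [CharZero F] (v : Valuation K Γ)
    (hF : ∀ e : K, IsAlgebraic F e → e ∈ (algebraMap F K).range)
    (hD : ∀ D : Derivation F K K, ∃ C : Γ, ∀ y, v (D y) ≤ C * v y) (n : ℕ) :
    ∀ (W : Submodule F K) [FiniteDimensional F W], finrank F W = n → ∀ f : K →ₗ[F] K,
      ∃ C : Γ, ∀ y ∈ W, v (f y) ≤ C * v y := by
  induction n using Nat.strong_induction_on with
  | _ n ih =>
  have key : ∀ (W : Submodule F K) [FiniteDimensional F W], finrank F W = n → (1 : K) ∈ W →
      ∀ f : K →ₗ[F] K, ∃ C : Γ, ∀ y ∈ W, v (f y) ≤ C * v y := by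
    intro W _ hn h1 f
    by_cases hW : ∀ e ∈ W, e ∈ (algebraMap F K).range
    · refine ⟨v (f 1), fun y hy => ?_⟩
      obtain ⟨c, rfl⟩ := hW y hy
      rw [Algebra.algebraMap_eq_smul_one, map_smul, Algebra.smul_def, Algebra.smul_def, mul_one,
        map_mul, mul_comm]
    push Not at hW
    obtain ⟨e, heW, he⟩ := hW
    obtain ⟨D, hDe⟩ := exists_der_one (L := F) (y := e) fun h => he (hF e h)
    obtain ⟨CD, hCD⟩ := hD D
    let Dl : K →ₗ[F] K := D
    let W0 : Submodule F K := W ⊓ LinearMap.ker Dl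
    let W1 : Submodule F K := W.map Dl
    have : FiniteDimensional F W0 := Submodule.finiteDimensional_of_le inf_le_left
    have h0 : finrank F W0 < n := by
      rw [← hn]
      refine Submodule.finrank_lt_finrank_of_lt (lt_of_le_of_ne inf_le_left fun h => ?_)
      have : e ∈ W0 := h ▸ heW
      have h2 : D e = 0 := this.2
      rw [hDe] at h2
      exact one_ne_zero h2
    have h1' : finrank F W1 < n := by
      have h2 := LinearMap.finrank_range_add_finrank_ker (Dl.domRestrict W)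
      rw [LinearMap.range_domRestrict] at h2
      have h3 : 0 < finrank F (LinearMap.ker (Dl.domRestrict W)) := by
        refine Nat.pos_of_ne_zero fun h => ?_
        have h4 : (⟨1, h1⟩ : W) ∈ LinearMap.ker (Dl.domRestrict W) := D.map_one_eq_zero
        rw [Submodule.finrank_eq_zero.1 h, Submodule.mem_bot] at h4
        exact one_ne_zero (congrArg Subtype.val h4)
      change finrank F W1 + _ = _ at h2
      omega
    obtain ⟨σ0, hσ0⟩ := ((Dl.domRestrict W).codRestrict W1
      fun y => ⟨y.1, y.2, rfl⟩).exists_rightInverse_of_surjective (by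
        rw [LinearMap.range_eq_top]
        rintro ⟨_, y, hy, rfl⟩
        exact ⟨⟨y, hy⟩, rfl⟩)
    obtain ⟨σ, hσ⟩ := (W.subtype ∘ₗ σ0).exists_extend
    have hσ1 : ∀ y (hy : y ∈ W), σ (D y) = σ0 ⟨D y, y, hy, rfl⟩ := fun y hy =>
      LinearMap.congr_fun hσ ⟨D y, y, hy, rfl⟩
    have hσ2 : ∀ y ∈ W, y - σ (D y) ∈ W0 := fun y hy => by
      refine ⟨W.sub_mem hy (hσ1 y hy ▸ (σ0 _).2), ?_⟩
      have h2 : D (σ0 ⟨D y, y, hy, rfl⟩ : K) = D y :=
        congrArg Subtype.val (LinearMap.congr_fun hσ0 ⟨D y, y, hy, rfl⟩)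
      change D (y - σ (D y)) = 0
      rw [map_sub, hσ1 y hy, h2, sub_self]
    obtain ⟨C0, hC0⟩ := ih _ h0 W0 rfl f
    obtain ⟨C1, hC1⟩ := ih _ h1' W1 rfl σ
    obtain ⟨C2, hC2⟩ := ih _ h1' W1 rfl (f ∘ₗ σ)
    refine ⟨max (C0 * max 1 (C1 * CD)) (C2 * CD), fun y hy => ?_⟩
    have hy1 : D y ∈ W1 := ⟨y, hy, rfl⟩
    have e1 : f y = f (y - σ (D y)) + f (σ (D y)) := by rw [← map_add, sub_add_cancel]
    rw [e1]
    refine v.map_add_le ?_ ?_
    · refine (hC0 _ (hσ2 y hy)).trans (le_trans ?_ (mul_le_mul_left (le_max_left _ _) _))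
      rw [mul_assoc]
      refine mul_le_mul_right (v.map_sub_le ?_ ?_) _
      · exact (one_mul _).ge.trans (mul_le_mul_left (le_max_left _ _) _)
      · refine (hC1 _ hy1).trans (le_trans ?_ (mul_le_mul_left (le_max_right _ _) _))
        rw [mul_assoc]
        exact mul_le_mul_right (hCD y) _
    · refine (hC2 _ hy1).trans (le_trans ?_ (mul_le_mul_left (le_max_right _ _) _))
      rw [mul_assoc]
      exact mul_le_mul_right (hCD y) _
  intro W _ hn f
  by_cases hW : W = ⊥
  · refine ⟨1, fun y hy => ?_⟩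
    rw [hW, Submodule.mem_bot] at hy
    simp [hy]
  obtain ⟨w, hw, hw0⟩ := Submodule.exists_mem_ne_zero_of_ne_bot hW
  let m : K ≃ₗ[F] K := (LinearEquiv.smulOfNeZero K K w⁻¹ (inv_ne_zero hw0)).restrictScalars F
  have hm : ∀ y, m y = w⁻¹ * y := fun _ => rfl
  obtain ⟨C, hC⟩ := key (W.map m.toLinearMap) ((LinearEquiv.finrank_map_eq m W).trans hn)
    ⟨w, hw, (hm w).trans (inv_mul_cancel₀ hw0)⟩ (f ∘ₗ m.symm.toLinearMap)
  refine ⟨C * v w⁻¹, fun y hy => ?_⟩
  have := hC (m y) ⟨y, hy, rfl⟩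
  rwa [LinearMap.comp_apply, LinearEquiv.coe_coe, m.symm_apply_apply, hm, map_mul,
    ← mul_assoc] at this

/-- If `F` is algebraically closed in `K` and every `F`-derivation is bounded at `v`, every
`F`-linear map from a finite dimensional subspace of `K` to `K` is bounded at `v`. -/
theorem lin_bound [CharZero F] (v : Valuation K Γ)
    (hF : ∀ e : K, IsAlgebraic F e → e ∈ (algebraMap F K).range)
    (hD : ∀ D : Derivation F K K, ∃ C : Γ, ∀ y, v (D y) ≤ C * v y)
    (W : Submodule F K) [FiniteDimensional F W] (f : W →ₗ[F] K) :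
    ∃ C : Γ, ∀ y : W, v (f y) ≤ C * v (y : K) := by
  obtain ⟨g, hg⟩ := f.exists_extend
  obtain ⟨C, hC⟩ := W_lin_bound_aux v hF hD _ W rfl g
  exact ⟨C, fun y => (LinearMap.congr_fun hg y) ▸ hC y y.2⟩

/-- The same for functionals. -/
theorem coord_bound [CharZero F] (v : Valuation K Γ)
    (hF : ∀ e : K, IsAlgebraic F e → e ∈ (algebraMap F K).range)
    (hD : ∀ D : Derivation F K K, ∃ C : Γ, ∀ y, v (D y) ≤ C * v y)
    (W : Submodule F K) [FiniteDimensional F W] (φ : W →ₗ[F] F) :
    ∃ C : Γ, ∀ y : W, v (algebraMap F K (φ y)) ≤ C * v (y : K) :=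
  lin_bound v hF hD W (Algebra.linearMap F K ∘ₗ φ)

end Bound

section Der

variable {k K Γ : Type*} [CommRing k] [Field K] [Algebra k K] [LinearOrderedCommGroupWithZero Γ]

theorem W_adjoin_bound (v : Valuation K Γ) (D : Derivation k K K) {s : Set K} (hs : s.Finite)
    (h1 : ∀ r ∈ Algebra.adjoin k s, v r ≤ 1) :
    ∃ C : Γ, ∀ r ∈ Algebra.adjoin k s, v (D r) ≤ C := by
  obtain ⟨C, hC⟩ := (hs.image fun z => v (D z)).bddAbove
  refine ⟨C, fun r hr => ?_⟩
  induction hr using Algebra.adjoin_induction with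
  | mem x hx => exact hC ⟨x, hx, rfl⟩
  | algebraMap a => simp
  | add x y _ _ hx hy => rw [map_add]; exact v.map_add_le hx hy
  | mul x y hx hy ihx ihy =>
    rw [D.leibniz, smul_eq_mul, smul_eq_mul]
    refine v.map_add_le ?_ ?_ <;> rw [map_mul]
    · exact (mul_le_of_le_one_left' (h1 x hx)).trans ihy
    · exact (mul_le_of_le_one_left' (h1 y hy)).trans ihx

/-- A derivation is bounded at a discrete valuation whose ring is a localisation of a finitely
generated algebra. -/
theorem der_bound_of_loc (v : Valuation K (WithZero (Multiplicative ℤ))) (D : Derivation k K K)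
    {s : Set K} (hs : s.Finite) (hπ : ∃ π, v π = exp (-1))
    (h1 : ∀ r ∈ Algebra.adjoin k s, v r ≤ 1)
    (h2 : ∀ z, v z ≤ 1 → ∃ b ∈ Algebra.adjoin k s, v b = 1 ∧ b * z ∈ Algebra.adjoin k s) :
    ∃ C, ∀ y, v (D y) ≤ C * v y := by
  obtain ⟨C, hC⟩ := W_adjoin_bound v D hs h1
  obtain ⟨π, hπ⟩ := hπ
  have h3 : ∀ z, v z ≤ 1 → v (D z) ≤ C := fun z hz => by
    obtain ⟨b, hb, hb1, hbz⟩ := h2 z hz
    have e : b * D z = D (b * z) - z * D b := by
      rw [D.leibniz, smul_eq_mul, smul_eq_mul]; ring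
    have : v (b * D z) ≤ C := by
      rw [e]
      refine v.map_sub_le (hC _ hbz) ?_
      rw [map_mul]
      exact (mul_le_of_le_one_left' hz).trans (hC b hb)
    rwa [map_mul, hb1, one_mul] at this
  have hπ0 : π ≠ 0 := fun h => by
    rw [h, map_zero] at hπ
    exact exp_ne_zero hπ.symm
  refine ⟨C * exp 1, fun y => ?_⟩
  by_cases hy : y = 0
  · simp [hy]
  have hy' : v y ≠ 0 := (map_ne_zero v).2 hy
  set m : ℤ := -log (v y) with hm
  have hp : v (π ^ m) = v y := by
    rw [map_zpow₀, hπ, ← exp_zsmul, hm, smul_eq_mul, neg_mul_neg, mul_one, exp_log hy']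
  have hu : v (y / π ^ m) = 1 := by rw [map_div₀, hp, div_self hy']
  have e : D y = π ^ m * D (y / π ^ m) + y / π ^ m * ((m : K) * π ^ m * π⁻¹ * D π) := by
    conv_lhs => rw [← mul_div_cancel₀ y (zpow_ne_zero m hπ0)]
    rw [D.leibniz, D.leibniz_zpow, zpow_sub_one₀ hπ0]
    simp only [smul_eq_mul, zsmul_eq_mul]
    ring
  have hle : (1 : WithZero (Multiplicative ℤ)) ≤ exp 1 := by
    rw [← exp_zero, exp_le_exp]; norm_num
  rw [e]
  refine v.map_add_le ?_ ?_
  · rw [map_mul, hp, mul_comm]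
    exact mul_le_mul_left ((h3 _ hu.le).trans (le_mul_of_one_le_right' hle)) _
  · rw [map_mul, hu, one_mul, map_mul, map_mul, map_mul, hp, map_inv₀, hπ, ← exp_neg, neg_neg]
    have hm1 : v (m : K) ≤ 1 := h1 _ (intCast_mem _ m)
    have hDπ : v (D π) ≤ C := h3 π (by rw [hπ, ← exp_zero, exp_le_exp]; norm_num)
    calc v (m : K) * v y * exp 1 * v (D π) ≤ 1 * v y * exp 1 * C := by gcongr
      _ = C * exp 1 * v y := by rw [one_mul, mul_comm _ C, mul_comm (v y), mul_assoc]

end Der

/-- Every derivation over a field `F ⊇ ℂ` is bounded at a prime divisor of a chart. -/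
theorem der_bound {F K ι : Type} [Field F] [Field K] [Algebra ℂ K] [Algebra ℂ F] [Algebra F K]
    [IsScalarTower ℂ F K] [Finite ι] {x : ι → Kˣ} {i : ι}
    {v : Valuation K (WithZero (Multiplicative ℤ))} (hv : Hyp.PrimeDiv (Hyp.chart x i) v)
    (D : Derivation F K K) : ∃ C, ∀ y, v (D y) ≤ C * v y :=
  der_bound_of_loc v (D.restrictScalars ℂ) (Set.finite_range _) hv.1 hv.2.1 hv.2.2

section Trace

theorem W_noeth {K : Type*} [Field K] (v : Valuation K (WithZero (Multiplicative ℤ))) :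
    IsNoetherianRing v.integer := by
  have : IsPrincipalIdealRing v.integer := by
    refine ⟨fun I => ?_⟩
    by_cases hI : I = ⊥
    · rw [hI]; exact bot_isPrincipal
    have hne : ∃ n : ℕ, ∃ z ∈ I, v (z : K) = exp (-(n : ℤ)) := by
      obtain ⟨z, hz, hz0⟩ := Submodule.exists_mem_ne_zero_of_ne_bot hI
      have h0 : v (z : K) ≠ 0 := (map_ne_zero v).2 fun h => hz0 (Subtype.ext h)
      have h1 : log (v (z : K)) ≤ 0 := by
        rw [← exp_le_exp, exp_log h0]; exact z.2
      refine ⟨(-log (v (z : K))).toNat, z, hz, ?_⟩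
      rw [Int.toNat_of_nonneg (by omega), neg_neg, exp_log h0]
    classical
    obtain ⟨z, hz, hzv⟩ := Nat.find_spec hne
    refine ⟨⟨z, le_antisymm (fun y hy => ?_) ((Submodule.span_singleton_le_iff_mem _ _).2 hz)⟩⟩
    refine Ideal.mem_span_singleton.2 ((Valuation.integer.integers v).dvd_of_le ?_)
    by_cases h0 : v (y : K) = 0
    · exact h0.le.trans zero_le
    have h1 : log (v (y : K)) ≤ 0 := by
      rw [← exp_le_exp, exp_log h0]; exact y.2
    have h2 : Nat.find hne ≤ (-log (v (y : K))).toNat := Nat.find_min' hne ⟨y, hy, by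
      rw [Int.toNat_of_nonneg (by omega), neg_neg, exp_log h0]⟩
    change v (y : K) ≤ v (z : K)
    rw [hzv, ← exp_log h0, exp_le_exp]
    omega
  infer_instance

variable {F K A : Type*} [Field F] [Field K] [Field A] [Algebra F K] [Algebra F A]

/-- If the coordinates of `μ ^ N y ^ N` are bounded at `v`, then `μ Tr y` is integral at `v`. -/
theorem trace_le_one [CharZero F] [FiniteDimensional F A]
    (v : Valuation K (WithZero (Multiplicative ℤ))) (μ : K) (y : A)
    (h : ∀ φ : A →ₗ[F] F, ∃ C, ∀ N : ℕ, v (μ ^ N * algebraMap F K (φ (y ^ N))) ≤ C) :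
    v (μ * algebraMap F K (Algebra.trace F A y)) ≤ 1 := by
  classical
  have := W_noeth v
  let Ω := AlgebraicClosure K
  let b := finBasis F A
  choose C hC using fun l => h (b.coord l)
  have hd : ∀ l, ∃ d : K, ∀ N : ℕ, ∃ o : v.integer,
      μ ^ N * algebraMap F K (b.coord l (y ^ N)) = o * d := fun l => by
    by_cases hb : ∃ N : ℕ, μ ^ N * algebraMap F K (b.coord l (y ^ N)) ≠ 0
    · have hne : ∃ n : ℤ, ∃ N : ℕ, v (μ ^ N * algebraMap F K (b.coord l (y ^ N))) = exp n := by
        obtain ⟨N, hN⟩ := hb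
        exact ⟨_, N, (exp_log ((map_ne_zero v).2 hN)).symm⟩
      obtain ⟨n, ⟨N0, hN0⟩, hn⟩ := Int.exists_greatest_of_bdd (P := fun n : ℤ => ∃ N : ℕ,
          v (μ ^ N * algebraMap F K (b.coord l (y ^ N))) = exp n) ⟨log (C l), fun z ⟨N, hN⟩ => by
        have h1 := hN ▸ hC l N
        have h2 : C l ≠ 0 := fun h0 => exp_ne_zero (le_zero_iff.1 (h0 ▸ h1))
        rwa [← exp_log h2, exp_le_exp] at h1⟩ hne
      have h0 : μ ^ N0 * algebraMap F K (b.coord l (y ^ N0)) ≠ 0 := fun h0 => by
        rw [h0, map_zero] at hN0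
        exact exp_ne_zero hN0.symm
      refine ⟨_, fun N => ⟨⟨μ ^ N * algebraMap F K (b.coord l (y ^ N)) /
        (μ ^ N0 * algebraMap F K (b.coord l (y ^ N0))), ?_⟩, (div_mul_cancel₀ _ h0).symm⟩⟩
      rw [Valuation.mem_integer_iff, map_div₀, hN0]
      refine div_le_one_of_le₀ ?_ zero_le
      by_cases h1 : v (μ ^ N * algebraMap F K (b.coord l (y ^ N))) = 0
      · exact h1.le.trans zero_le
      · rw [← exp_log h1, exp_le_exp]
        exact hn _ ⟨N, (exp_log h1).symm⟩
    · push Not at hb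
      exact ⟨0, fun N => ⟨0, by rw [hb N, mul_zero]⟩⟩
  choose d hd using hd
  have hint : ∀ ρ : A →ₐ[F] Ω, IsIntegral v.integer (algebraMap K Ω μ * ρ y) := fun ρ => by
    refine IsIntegral.of_mem_of_fg (Algebra.adjoin v.integer {algebraMap K Ω μ * ρ y}) ?_ _
      (Algebra.self_mem_adjoin_singleton _ _)
    refine Submodule.FG.of_le (Submodule.fg_span (Set.finite_range
      fun l => algebraMap K Ω (d l) * ρ (b l))) ?_
    rw [Algebra.adjoin_eq_span, Submodule.span_le]
    intro z hz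
    obtain ⟨N, rfl⟩ := (Submonoid.mem_closure_singleton).1 hz
    rw [mul_pow, ← map_pow ρ, ← b.sum_repr (y ^ N), map_sum, Finset.mul_sum]
    refine Submodule.sum_mem _ fun l _ => ?_
    obtain ⟨o, ho⟩ := hd l N
    have e : algebraMap K Ω μ ^ N * ρ (b.repr (y ^ N) l • b l) =
        o • (algebraMap K Ω (d l) * ρ (b l)) := by
      rw [map_smul, Algebra.smul_def, Algebra.smul_def, IsScalarTower.algebraMap_apply F K Ω,
        ← mul_assoc, ← map_pow, ← map_mul, IsScalarTower.algebraMap_apply v.integer K Ω,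
        ← mul_assoc, ← map_mul]
      exact congrArg (fun t => algebraMap K Ω t * ρ (b l)) ho
    rw [e]
    exact Submodule.smul_mem _ _ (Submodule.subset_span ⟨l, rfl⟩)
  refine (Valuation.integer.integers v).mem_of_integral
    ((isIntegral_algebraMap_iff (algebraMap K Ω).injective).1 ?_)
  rw [map_mul, ← IsScalarTower.algebraMap_apply, trace_eq_sum_embeddings Ω, Finset.mul_sum]
  exact IsIntegral.sum _ fun ρ _ => hint ρ

end Trace

section Descent

variable {F K F1 J : Type*} [Field F] [Field K] [Field F1] [Algebra F K] [Algebra F F1]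

/-- Descent by traces. `S a` are the sections of degree `a` on the subvariety (divided by the
power of the vertical section), `V` is the finite dimensional span upstairs and `r` is the
restriction map. -/
theorem descent [CharZero F] (hF : ∀ e : K, IsAlgebraic F e → e ∈ (algebraMap F K).range)
    (v : J → Valuation K (WithZero (Multiplicative ℤ)))
    (hD : ∀ j (D : Derivation F K K), ∃ C, ∀ y, v j (D y) ≤ C * v j y) (μ : J → K)
    (V : Submodule F K) [FiniteDimensional F V] (r : V →ₗ[F] F1) {h : F1} (h0 : h ≠ 0)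
    (S : ℕ → Set F1) (S1 : (1 : F1) ∈ S 0)
    (Smul : ∀ a b, ∀ y ∈ S a, ∀ z ∈ S b, y * z ∈ S (a + b))
    (C : J → WithZero (Multiplicative ℤ))
    (lift : ∀ a, ∀ y ∈ S a, ∃ s : V, r s = y * h ∧ ∀ j, v j (μ j ^ a * s) ≤ C j) :
    ∃ (m : ℕ) (a : Fin m → ℕ) (T : Fin m → F1 →ₗ[F] F),
      (∀ b, ∀ y ∈ S b, (∀ i, T i y = 0) → y = 0) ∧
      ∀ i j b, ∀ y ∈ S b, v j (μ j ^ (b + a i) * algebraMap F K (T i y)) ≤ 1 := by
  classical
  let U : Submodule F F1 := Submodule.span F (⋃ a, S a)
  have hSU : ∀ a, ∀ y ∈ S a, y ∈ U := fun a y hy =>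
    Submodule.subset_span (Set.mem_iUnion.2 ⟨a, hy⟩)
  have hUmul : ∀ y z, y ∈ U → z ∈ U → y * z ∈ U := fun y z hy hz => by
    have : U * U ≤ U := by
      rw [Submodule.span_mul_span, Submodule.span_le]
      rintro _ ⟨y, hy, z, hz, rfl⟩
      obtain ⟨a, ha⟩ := Set.mem_iUnion.1 hy
      obtain ⟨b, hb⟩ := Set.mem_iUnion.1 hz
      exact hSU _ _ (Smul a b y ha z hb)
    exact this (Submodule.mul_mem_mul hy hz)
  have hfg : U.FG := by
    refine Submodule.FG.of_le (T := LinearMap.range (LinearMap.mulRight F h⁻¹ ∘ₗ r))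
      (Module.Finite.iff_fg.1 inferInstance) (Submodule.span_le.2 fun y hy => ?_)
    obtain ⟨a, ha⟩ := Set.mem_iUnion.1 hy
    obtain ⟨s, hs, -⟩ := lift a y ha
    exact ⟨s, by simp [hs, h0]⟩
  let A0 : Subalgebra F F1 := U.toSubalgebra (hSU 0 1 S1) hUmul
  let A : IntermediateField F F1 := A0.toIntermediateField fun y hy =>
    A0.inv_mem_of_algebraic (x := ⟨y, hy⟩) (IsIntegral.of_mem_of_fg A0 hfg y hy).isAlgebraic
  have : FiniteDimensional F A := Module.Finite.iff_fg.2 hfg
  obtain ⟨π, hπ⟩ := A.val.toLinearMap.exists_leftInverse_of_injective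
    (LinearMap.ker_eq_bot.2 Subtype.val_injective)
  have hπ' : ∀ y (hy : y ∈ U), π y = ⟨y, hy⟩ := fun y hy => LinearMap.congr_fun hπ ⟨y, hy⟩
  obtain ⟨t, ht, hspan⟩ := (Submodule.fg_span_iff_fg_span_finset_subset _).1 hfg
  let τ : Fin t.card → F1 := fun i => t.equivFin.symm i
  have hτ : ∀ i, ∃ a, τ i ∈ S a := fun i => Set.mem_iUnion.1 (ht (t.equivFin.symm i).2)
  choose a ha using hτ
  refine ⟨t.card, a, fun i => Algebra.trace F A ∘ₗ π ∘ₗ LinearMap.mulRight F (τ i),
    fun b y hy hT => ?_, fun i j b y hy => ?_⟩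
  · have h1 : ∀ z ∈ U, Algebra.trace F A (π (y * z)) = 0 := fun z hz => by
      have hz' : z ∈ Submodule.span F (t : Set F1) := hspan ▸ hz
      clear hz
      induction hz' using Submodule.span_induction with
      | mem z hz => simpa [τ] using hT (t.equivFin ⟨z, hz⟩)
      | zero => simp
      | add z w _ _ hz hw => rw [mul_add, map_add, map_add, hz, hw, add_zero]
      | smul c z _ hz => rw [mul_smul_comm, map_smul, map_smul, hz, smul_zero]
    refine congrArg Subtype.val ((traceForm_nondegenerate F A).1 ⟨y, hSU b y hy⟩ fun z => ?_)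
    have := h1 z z.2
    rwa [hπ' _ (hUmul _ _ (hSU b y hy) z.2)] at this
  · have hw := Smul b (a i) y hy _ (ha i)
    have hpow : ∀ N : ℕ, (y * τ i) ^ N ∈ S ((b + a i) * N) := fun N => by
      induction N with
      | zero => simpa using S1
      | succ N ih => rw [pow_succ, mul_add, mul_one]; exact Smul _ _ _ ih _ hw
    refine trace_le_one (v j) (μ j ^ (b + a i)) (π (y * τ i)) fun φ => ?_
    obtain ⟨C', hC'⟩ := coord_bound (v j) hF (hD j) V
      (φ ∘ₗ π ∘ₗ LinearMap.mulRight F h⁻¹ ∘ₗ r)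
    refine ⟨C' * C j, fun N => ?_⟩
    obtain ⟨s, hs, hv⟩ := lift _ _ (hpow N)
    have e : π (y * τ i) ^ N = π (r s * h⁻¹) := by
      rw [hs, mul_inv_cancel_right₀ h0, hπ' _ (hSU _ _ hw), hπ' _ (hSU _ _ (hpow N))]
      rfl
    have h2 := hC' s
    rw [e, ← pow_mul, map_mul]
    calc _ ≤ v j (μ j ^ ((b + a i) * N)) * (C' * v j s) := mul_le_mul_right h2 _
      _ = C' * v j (μ j ^ ((b + a i) * N) * s) := by rw [map_mul, mul_left_comm]
      _ ≤ C' * C j := mul_le_mul_right (hv j) _

/-- Counting form of `descent`. -/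
theorem descent_finrank {k : Type*} [Field k] [Algebra k F] [Algebra k K] [Algebra k F1]
    [IsScalarTower k F K] [IsScalarTower k F F1]
    [CharZero F] (hF : ∀ e : K, IsAlgebraic F e → e ∈ (algebraMap F K).range)
    (v : J → Valuation K (WithZero (Multiplicative ℤ)))
    (hD : ∀ j (D : Derivation F K K), ∃ C, ∀ y, v j (D y) ≤ C * v j y) (μ : J → K)
    (V : Submodule F K) [FiniteDimensional F V] (r : V →ₗ[F] F1) {h : F1} (h0 : h ≠ 0)
    (S : ℕ → Submodule k F1) (S1 : (1 : F1) ∈ S 0)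
    (Smul : ∀ a b, ∀ y ∈ S a, ∀ z ∈ S b, y * z ∈ S (a + b))
    (C : J → WithZero (Multiplicative ℤ))
    (lift : ∀ a, ∀ y ∈ S a, ∃ s : V, r s = y * h ∧ ∀ j, v j (μ j ^ a * s) ≤ C j)
    {lam : K} (hl : lam ≠ 0) (G : ℕ → Submodule k K) [∀ b, FiniteDimensional k (G b)]
    (hG : ∀ (b : ℕ) (t : F), (∀ j, v j (μ j ^ b * algebraMap F K t) ≤ 1) →
      lam ^ b * algebraMap F K t ∈ G b) :
    ∃ (m : ℕ) (a : Fin m → ℕ), ∀ b, FiniteDimensional k (S b) ∧
      finrank k (S b) ≤ ∑ i, finrank k (G (b + a i)) := by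
  obtain ⟨m, a, T, hT0, hT⟩ := descent hF v hD μ V r h0 (fun a => S a) S1 Smul C lift
  refine ⟨m, a, fun b => ?_⟩
  let Φ : S b →ₗ[k] ∀ i, G (b + a i) := LinearMap.pi fun i =>
    LinearMap.codRestrict (G (b + a i)) (LinearMap.mulLeft k (lam ^ (b + a i)) ∘ₗ
      ((Algebra.linearMap F K ∘ₗ T i).restrictScalars k) ∘ₗ (S b).subtype)
      fun y => hG _ _ fun j => hT i j b y y.2
  have hΦ : Function.Injective Φ := by
    rw [injective_iff_map_eq_zero]
    intro y hy
    refine Subtype.ext (hT0 b y y.2 fun i => ?_)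
    have h1 : lam ^ (b + a i) * algebraMap F K (T i y) = 0 :=
      congrArg Subtype.val (congrFun hy i)
    simpa [hl] using h1
  exact ⟨.of_injective Φ hΦ, (LinearMap.finrank_le_finrank_of_injective hΦ).trans
    (finrank_pi_fintype k).le⟩

end Descent

end Pool.Agent.Lib.MP_bc213e_ag.KBA
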