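import Pool.Agent.Lib.MP_bc213e_ag.KBG.G3V
import Pool.Agent.Lib.MP_bc213e_ag.KBN.NC
import Pool.Agent.Lib.MP_bc213e_ag.KBD.Fin
import Pool.Agent.Lib.MP_bc213e_ag.KBV.Main

/-! The main theorem, with a uniform Hilbert polynomial. -/

set_option linter.unusedSectionVars false

namespace Pool.Agent.Lib.MP_bc213e_ag.KBG

open Hyp KBB KBV IntermediateField Module Filter

open Classical in
/-- The functions with a pole of order at most `μ` at infinity and no other pole. -/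
theorem IsFr.gam_q {k σ F : Type} [Field k] [Field F] [Algebra k F] {ev : MvPolynomial σ k →ₐ[k] F}
    [Nonempty σ] [Infinite k] (h : IsFr ev) (Ω : Type) (μ : ℕ) (z : F) :
    (∀ p ∈ (h.base Ω).Pl, p.Ge z (if p = (h.base Ω).inf then -(μ : ℚ) else 0)) ↔
      ∃ f : MvPolynomial σ k, f.totalDegree ≤ μ ∧ z = ev f := by
  rw [← h.gam_iff h.isInf μ z]
  change (∀ p ∈ toQ '' Pl ev, p.Ge z (if p = toQ h.u then -(μ : ℚ) else 0)) ↔ _
  rw [Set.forall_mem_image]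
  refine forall₂_congr fun w _ => ?_
  rw [← toQ_ge]
  simp only [toQ_inj]
  split_ifs <;> simp

variable {K ι k F : Type} [Field K] [Algebra ℂ K] [Field k] [Field F] [Algebra k F] [Algebra F K]
  [Algebra ℂ k] [Algebra k K] [IsScalarTower ℂ k K] [IsScalarTower k F K] [Fintype ι] [Nonempty ι]
  {s : ℕ} {x g : ι → Kˣ} {ξ : Fin (s + 3) → K} {Θ : K} {ev : MvPolynomial (Fin (s + 1)) k →ₐ[k] F}

/-- The theorem for a fixed tower of fields. -/
theorem Sop.main (S : Sop x ξ Θ) (T : Tw (yy ξ) ev) (frac : ∀ i, IsFractionRing (chart x i) K)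
    (norm : ∀ i, IsIntegrallyClosed (chart x i)) (hc : Cart x g) (hn : Nef x g)
    {τ : Fin (s + 2) → K} (hτ : IsTranscendenceBasis ℂ τ) {D : Fin (s + 2) → Derivation ℂ K K}
    (hD : ∀ a b, D a (τ b) = if a = b then 1 else 0)
    (eff : ∀ T : ℕ, ∃ (m a b : ℕ) (σ : Kˣ), T * b < m ∧
      ∀ i w, PrimeDiv (chart x i) w → ¬ LD D m w (g i ^ a * x i ^ b / σ) (m + 1))
    {P : MvPolynomial (Fin 2) ℚ} {a₀ : ℕ}
    (hP : ∀ t a : ℕ, a₀ ≤ a → FiniteDimensional ℂ (SecS x g t a) ∧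
      (finrank ℂ (SecS x g t a) : ℚ) = MvPolynomial.eval ![(t : ℚ), (a : ℚ)] P)
    (nu : ∀ a : ℕ, ∃ C : ℕ, ∀ t : ℕ, finrank ℂ (SecS x g t a) ≤ C * (t + 1) ^ s)
    {c : ℚ} (hc0 : 0 < c)
    (chi : ∀ᶠ t : ℕ in atTop, c * (t : ℚ) ^ s ≤ MvPolynomial.eval ![(t : ℚ), 0] P)
    (Ω : Type) [Field Ω] [Algebra K Ω] [Algebra F Ω] [Algebra k Ω] [IsScalarTower F K Ω]
    [IsScalarTower k F Ω] [IsScalarTower k K Ω] [IsAlgClosure F Ω] :
    ∃ δ : ℚ, 0 < δ ∧ ∃ᶠ t : ℕ in atTop, δ * (t : ℚ) ^ s ≤ finrank ℂ (SecS x g t 0) := by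
  by_contra small
  have : CharZero k := charZero_of_injective_algebraMap (algebraMap ℂ k).injective
  have : CharZero F := charZero_of_injective_algebraMap (algebraMap k F).injective
  have : CharZero Ω := charZero_of_injective_algebraMap (algebraMap k Ω).injective
  have := S.fd
  have : FiniteDimensional F K := T.hF.fd
  obtain ⟨h1, h2, h3⟩ := S.g3v (Ω := Ω) T frac norm hc hn hP nu hc0 chi small
  have G : (T.fr.base Ω).Geo (KO K F Ω) (LL (T.fr.base Ω) x g) s T.fr.Q (MO k Ω x g (ξ 0)) :=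
    { finK := finK
      hL := geo_hL hc
      hyp := T.fr.geo_hyp
      two := T.fr.geo_two
      nef := S.geo_nef T hn
      adj := fun T' => by
        obtain ⟨m, a, b, σ, hm, he⟩ := eff T'
        exact ⟨m, a, b, hm, S.geo_adj' T frac norm (Nat.zero_lt_of_lt hm) hτ hD he⟩
      nc := KBN.geo_nc hc hn (algebraMap K Ω) (S.ne 0) (S.mem 0) _ (geo_hL hc) (S.sec T) ev T.fr.inj
        T.fr.frac (T.fr.gam_q Ω) (fun l => ⟨ξ l.succ.succ, S.mem _, by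
          rw [IsScalarTower.algebraMap_apply F K Ω, T.X, yy]⟩) _ rfl T.fr.hyp_X
      tame := h1
      le := S.geo_le T
      kill := h2
      poly := h3 }
  obtain ⟨KK, c', lam, w, O⟩ := G.main
  obtain ⟨t, ht⟩ := (T.hk _).2 (mem_adjoin_simple_self ℂ _)
  exact small (KBD.out_main frac norm hc hn S ht (fun _ => mem_KO) (MO_le _) h1
    (fun _ _ _ hr => S.sec_nat T hr) (fun v => ⟨_, isCtr_ctr x v.1, rfl⟩)
    (fun _ hv => T.ord_y_inf hv) O)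

end Pool.Agent.Lib.MP_bc213e_ag.KBG

namespace Pool.Agent.Lib.MP_bc213e_ag.KBA

open Pool.Agent.Lib.MP_bc213e_ag.Hyp Pool.Agent.Lib.MP_bc213e_ag.KBB Filter
open Pool.Agent.Lib.MP_bc213e_ag.KBG

theorem main {K ι : Type} [Field K] [Algebra ℂ K] [Fintype ι] {n : ℕ} (hn : 2 ≤ n)
    (x g : ι → Kˣ) (i₀ : ι) (one : x i₀ = 1)
    (frac : ∀ i, IsFractionRing (chart x i) K) (norm : ∀ i, IsIntegrallyClosed (chart x i))
    (τ : Fin n → K) (hτ : IsTranscendenceBasis ℂ τ) (D : Fin n → Derivation ℂ K K)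
    (hD : ∀ a b, D a (τ b) = if a = b then 1 else 0)
    (cartier : ∀ i j, ∃ e : ℕ, (g i : K) / g j * ((x i : K) / x j) ^ e ∈ chart x j)
    (effective : ∀ T : ℕ, ∃ (m a b : ℕ) (σ : Kˣ), T * b < m ∧
      ∀ i w, PrimeDiv (chart x i) w → ¬ LD D m w (g i ^ a * x i ^ b / σ) (m + 1))
    (nef : ∀ t : ℕ, ∃ N : ℕ, 0 < N ∧ Free x g (N * t) N)
    (P : MvPolynomial (Fin 2) ℚ) (a₀ : ℕ)
    (hP : ∀ t a : ℕ, a₀ ≤ a → FiniteDimensional ℂ (SecS x g t a) ∧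
      (Module.finrank ℂ (SecS x g t a) : ℚ) = MvPolynomial.eval ![(t : ℚ), (a : ℚ)] P)
    (nu : ∀ a : ℕ, ∃ C : ℕ, ∀ t : ℕ, Module.finrank ℂ (SecS x g t a) ≤ C * (t + 1) ^ (n - 2))
    {c : ℚ} (hc : 0 < c)
    (chi : ∀ᶠ t : ℕ in atTop, c * (t : ℚ) ^ (n - 2) ≤ MvPolynomial.eval ![(t : ℚ), 0] P) :
    ∃ δ : ℚ, 0 < δ ∧ ∃ᶠ t : ℕ in atTop,
      δ * (t : ℚ) ^ (n - 2) ≤ Module.finrank ℂ (SecS x g t 0) := by
  obtain ⟨s, rfl⟩ := Nat.exists_eq_add_of_le' hn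
  rw [Nat.add_sub_cancel] at nu chi ⊢
  have : Nonempty ι := ⟨i₀⟩
  have dim : Algebra.trdeg ℂ K = (s + 2 : ℕ) := by
    rw [← hτ.cardinalMk_eq_trdeg, Cardinal.mk_fin]
  obtain ⟨ξ, Θ, S⟩ := exists_sop x i₀ one (frac i₀) dim
  have := S.fd
  have : FiniteDimensional (FF ξ) K := S.tw.hF.fd
  have : Algebra.IsAlgebraic (FF ξ) (AlgebraicClosure K) := Algebra.IsAlgebraic.trans (FF ξ) K _
  have : IsAlgClosure (FF ξ) (AlgebraicClosure K) := ⟨inferInstance, inferInstance⟩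
  exact S.main S.tw frac norm cartier nef hτ hD effective hP nu hc chi (AlgebraicClosure K)

end Pool.Agent.Lib.MP_bc213e_ag.KBA
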